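import Pool.Agent.H653.Br.Fin

/-!
`RCA₀ + WKL + B Σ⁰₂` does not prove the bounded Ramsey theorem `BRT²₂`.

Idea of the model. In the coordinate `m` of an ultrapower of the standard structures we build a graph
(the pairs of colour `1`) with cliques of size at most `2 ^ m`, together with a sequence of sets (the
columns) that contains the graph and is closed under `Δ₁`-comprehension and under paths through binary
trees. This is done in `m` levels; the model is the cut that is given by the standard levels. On each
level a set `T` of points is chosen such that all later points are joined to all points of `T`, and such
that each column with a small index that has a late element is no longer independent. The set `T` is a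
union of blocks, and the graph between the blocks is a finite shift graph: it has no triangles, so the
clique number is only doubled, and its chromatic number is so large that a colouring of the blocks by
the small columns (and the sets of small facts that stay unsettled) has two joined blocks of the same
colour. By compactness the columns are kept in a closed set that is never empty.
-/

set_option autoImplicit false

namespace Pool.Agent.Results.MP_14f891_lc.BoundedRamseyFails

open Pool.Agent.H40.Bsig Pool.Agent.H653.BrDefs

/-- Some model of `RCA₀ + WKL + B Σ⁰₂` does not satisfy `BRT²₂`. -/
theorem result : ∃ M : Mod, RCA0 M ∧ WKL M ∧ Bnd M 2 ∧ ¬ BRT M :=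
  Pool.Agent.H653.Br.exDa.elim fun q => ⟨q.M, Pool.Agent.H653.Br.Da.rca, Pool.Agent.H653.Br.Da.wkl,
    Pool.Agent.H653.Br.Da.bnd, Pool.Agent.H653.Br.Da.not_brt⟩

end Pool.Agent.Results.MP_14f891_lc.BoundedRamseyFails
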